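import Pool.Agent.Y118.HP.LegB

/-!
# Differentiation of the real hyperelliptic periods in a branch point (job HG-PODE of helper118)
-/

set_option autoImplicit false

open Set MeasureTheory Filter Topology Polynomial

namespace Pool.Agent.Y496.HG

open Pool.Agent.Y118.HP

/-- differentiation under the integral -/
theorem hasDerivAt_int {U : Set ℝ} (hU : IsOpen U) {g g' : ℝ → ℝ → ℝ} {t b : ℝ} (ht : t ∈ U)
    (hb : 0 ≤ b) (hg : ∀ s ∈ U, Continuous (g s))
    (hg' : ContinuousOn (fun p : ℝ × ℝ => g' p.1 p.2) (U ×ˢ univ))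
    (hd : ∀ s ∈ U, ∀ θ, HasDerivAt (fun s => g s θ) (g' s θ) s) :
    HasDerivAt (fun s => ∫ θ in (0:ℝ)..b, g s θ) (∫ θ in (0:ℝ)..b, g' t θ) t := by
  obtain ⟨ε, hε, hball⟩ := Metric.nhds_basis_closedBall.mem_iff.1 (hU.mem_nhds ht)
  have hK : IsCompact (Metric.closedBall t ε ×ˢ Icc (0:ℝ) b) :=
    (isCompact_closedBall t ε).prod isCompact_Icc
  obtain ⟨M, hM⟩ := hK.exists_bound_of_continuousOn
    (hg'.mono (prod_mono hball (subset_univ _)))
  have hslice : ∀ s ∈ U, Continuous (g' s) := by
    intro s hs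
    rw [continuous_iff_continuousAt]
    intro θ
    have h1 : ContinuousAt (fun p : ℝ × ℝ => g' p.1 p.2) (s, θ) :=
      hg'.continuousAt ((hU.prod isOpen_univ).mem_nhds ⟨hs, mem_univ _⟩)
    exact ContinuousAt.comp (f := fun θ => (s, θ)) (g := fun p : ℝ × ℝ => g' p.1 p.2) h1
      (Continuous.prodMk_right s).continuousAt
  refine (intervalIntegral.hasDerivAt_integral_of_dominated_loc_of_deriv_le
    (F := g) (F' := g') (s := Metric.ball t ε) (bound := fun _ => M)
    (Metric.ball_mem_nhds t hε) ?_ ?_ ?_ ?_ ?_ ?_).2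
  · filter_upwards [hU.mem_nhds ht] with s hs
    exact (hg s hs).aestronglyMeasurable
  · exact (hg t ht).intervalIntegrable _ _
  · exact (hslice t ht).aestronglyMeasurable
  · refine Eventually.of_forall fun θ hθ s hs => ?_
    rw [uIoc_of_le hb] at hθ
    exact hM (s, θ) ⟨Metric.ball_subset_closedBall hs, hθ.1.le, hθ.2⟩
  · exact continuous_const.intervalIntegrable _ _
  · exact Eventually.of_forall fun θ _ s hs => hd s (hball (Metric.ball_subset_closedBall hs)) θ

/-- the branch point is not an endpoint of the gap -/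
theorem derA (x σ R s₀ : ℝ) (c : ℕ) (hR : 0 < R) (hs : 0 < σ * (x - s₀)) :
    HasDerivAt (fun s => 2 * (x ^ (c + 1) / √(σ * (x - s) * R)) - s * (2 * (x ^ c / √(σ * (x - s) * R))))
      (-(x ^ c / √(σ * (x - s₀) * R))) s₀ := by
  have hpos : 0 < σ * (x - s₀) * R := by positivity
  have hsq : 0 < √(σ * (x - s₀) * R) := Real.sqrt_pos.2 hpos
  have h1 : HasDerivAt (fun s : ℝ => σ * (x - s) * R) (σ * (-1) * R) s₀ :=
    (((hasDerivAt_id s₀).const_sub x).const_mul σ).mul_const R
  have h2 := h1.sqrt hpos.ne'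
  have h3 : HasDerivAt (fun s : ℝ => 2 * (x - s) * x ^ c) (2 * (-1) * x ^ c) s₀ :=
    (((hasDerivAt_id s₀).const_sub x).const_mul 2).mul_const _
  have h4 := h3.div h2 hsq.ne'
  have e : (fun s => 2 * (x ^ (c + 1) / √(σ * (x - s) * R)) - s * (2 * (x ^ c / √(σ * (x - s) * R)))) =
      fun s => 2 * (x - s) * x ^ c / √(σ * (x - s) * R) := by
    funext s
    ring
  rw [e]
  refine h4.congr_deriv ?_
  set S := √(σ * (x - s₀) * R) with hS
  have hS2 : S ^ 2 = σ * (x - s₀) * R := Real.sq_sqrt hpos.le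
  rw [div_eq_iff (by positivity)]
  field_simp
  linear_combination (- x ^ c) * hS2

variable {n : ℕ}

theorem er_self (a : Fin n → ℝ) (m : Fin (n + 1)) (s : ℝ) : er a m s m = s := by
  simp [er]

theorem er_ne (a : Fin n → ℝ) {m i : Fin (n + 1)} (h : i ≠ m) (s s' : ℝ) : er a m s i = er a m s' i := by
  rcases Fin.eq_self_or_eq_succAbove m i with rfl | ⟨i', rfl⟩
  · exact absurd rfl h
  · simp [er]

theorem isOpen_InGap (a : Fin n → ℝ) (m : Fin (n + 1)) : IsOpen {s : ℝ | InGap a m s} := by
  have : {s : ℝ | InGap a m s} = ⋂ i : Fin n, ({s : ℝ | i.castSucc < m → a i < s} ∩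
      {s : ℝ | m ≤ i.castSucc → s < a i}) := by
    ext s; simp [InGap]
  rw [this]
  refine isOpen_iInter_of_finite fun i => IsOpen.inter ?_ ?_
  · by_cases h5 : i.castSucc < m
    · simp only [h5, true_imp_iff]; exact isOpen_Ioi
    · simp only [h5, false_imp_iff]; exact isOpen_univ
  · by_cases h5 : m ≤ i.castSucc
    · simp only [h5, true_imp_iff]; exact isOpen_Iio
    · simp only [h5, false_imp_iff]; exact isOpen_univ

theorem cont_psi {e : Fin (n + 1) → ℝ} (he : StrictMono e) (l : Fin n) (c : ℕ) :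
    Continuous fun θ => 2 * (xs e l θ ^ c / √(Wf e l (xs e l θ))) := by
  have : (fun θ => 2 * (xs e l θ ^ c / √(Wf e l (xs e l θ)))) =
      fun θ => xs e l θ ^ c * (2 / √(Wf e l (xs e l θ))) := by funext θ; ring
  rw [this]
  exact ((continuous_xs e l).pow _).mul (continuous_psi he l)

theorem caseA {a : Fin n → ℝ} (ha : StrictMono a) {m : Fin (n + 1)} {t : ℝ} (h : InGap a m t)
    (l : Fin n) (c : ℕ) (h1 : m ≠ l.castSucc) (h2 : m ≠ l.succ) :
    HasDerivAt (fun s => perT (er a m s) l (c + 1) - s * perT (er a m s) l c)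
      (-(perT (er a m t) l c) / 2) t := by
  classical
  obtain ⟨σ, hσ⟩ : ∃ σ : ℝ, ∀ s x : ℝ, rfac (er a m s) l m x = σ * (x - s) := by
    rcases lt_or_gt_of_ne h1 with h3 | h3
    · exact ⟨1, fun s x => by rw [rfac, if_pos h3, er_self]; ring⟩
    · have h4 : l.succ < m := by
        rw [Fin.lt_def] at h3 ⊢
        have h5 : (m : ℕ) ≠ (l.succ : Fin (n + 1)) := fun hh => h2 (Fin.ext hh)
        simp at h3 h5 ⊢
        omega
      exact ⟨-1, fun s x => by rw [rfac, if_neg (not_lt.2 h3.le), if_pos h4, er_self]; ring⟩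
  set x : ℝ → ℝ := xs (er a m t) l with hx
  set R : ℝ → ℝ := fun y => ∏ i ∈ Finset.univ.erase m, rfac (er a m t) l i y with hR
  have hxs : ∀ s θ, xs (er a m s) l θ = x θ := by
    intro s θ
    rw [hx]
    unfold xs
    rw [er_ne a h1.symm s t, er_ne a h2.symm s t]
  have hW : ∀ s y, Wf (er a m s) l y = σ * (y - s) * R y := by
    intro s y
    unfold Wf
    rw [← Finset.mul_prod_erase Finset.univ _ (Finset.mem_univ m), hσ]
    congr 1
    refine Finset.prod_congr rfl fun i hi => ?_
    unfold rfac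
    rw [er_ne a (Finset.ne_of_mem_erase hi) s t]
  have hst := er_strictMono ha h
  have hRpos : ∀ θ, 0 < R (x θ) := fun θ =>
    Finset.prod_pos fun i _ => rfac_pos hst i (xs_mem hst l θ).1 (xs_mem hst l θ).2
  have hpos : ∀ s, InGap a m s → ∀ θ, 0 < σ * (x θ - s) := by
    intro s hs θ
    rw [← hσ, ← hxs s]
    exact rfac_pos (er_strictMono ha hs) m (xs_mem (er_strictMono ha hs) l θ).1
      (xs_mem (er_strictMono ha hs) l θ).2
  have hxc : Continuous x := continuous_xs _ _
  have hRc : Continuous R := by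
    refine continuous_finsetProd _ fun i _ => ?_
    unfold rfac
    split_ifs <;> fun_prop
  have hden : ContinuousOn (fun p : ℝ × ℝ => √(σ * (x p.2 - p.1) * R (x p.2)))
      ({s | InGap a m s} ×ˢ univ) := by
    refine Continuous.continuousOn ?_
    exact Real.continuous_sqrt.comp ((continuous_const.mul ((hxc.comp continuous_snd).sub
      continuous_fst)).mul (hRc.comp (hxc.comp continuous_snd)))
  have hne : ∀ s, InGap a m s → ∀ θ, √(σ * (x θ - s) * R (x θ)) ≠ 0 := fun s hs θ =>
    (Real.sqrt_pos.2 (mul_pos (hpos s hs θ) (hRpos θ))).ne'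
  have hgc : ∀ s, InGap a m s → ∀ c : ℕ, Continuous fun θ => 2 * (x θ ^ c / √(σ * (x θ - s) * R (x θ))) := by
    intro s hs c
    refine continuous_const.mul ((hxc.pow c).div ?_ (hne s hs))
    exact Real.continuous_sqrt.comp ((continuous_const.mul (hxc.sub continuous_const)).mul (hRc.comp hxc))
  have key := hasDerivAt_int (isOpen_InGap a m)
    (g := fun s θ => 2 * (x θ ^ (c + 1) / √(σ * (x θ - s) * R (x θ))) -
      s * (2 * (x θ ^ c / √(σ * (x θ - s) * R (x θ)))))
    (g' := fun s θ => -(x θ ^ c / √(σ * (x θ - s) * R (x θ)))) (t := t) (b := Real.pi / 2) h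
    (by positivity)
    (fun s hs => (hgc s hs (c + 1)).sub (continuous_const.mul (hgc s hs c)))
    (ContinuousOn.neg (ContinuousOn.div ((hxc.comp continuous_snd).pow c).continuousOn hden
      fun p hp => hne p.1 hp.1 p.2))
    (fun s hs θ => derA (x θ) σ (R (x θ)) s c (hRpos θ) (hpos s hs θ))
  have e1 : ∫ θ in (0:ℝ)..(Real.pi / 2), -(x θ ^ c / √(σ * (x θ - t) * R (x θ))) =
      -(perT (er a m t) l c) / 2 := by
    unfold perT
    rw [neg_div, ← intervalIntegral.integral_div, ← intervalIntegral.integral_neg]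
    refine intervalIntegral.integral_congr fun θ _ => ?_
    show -(x θ ^ c / √(σ * (x θ - t) * R (x θ))) =
      -(2 * (xs (er a m t) l θ ^ c / √(Wf (er a m t) l (xs (er a m t) l θ))) / 2)
    rw [hxs, hW]
    ring
  rw [e1] at key
  refine key.congr_of_eventuallyEq ?_
  filter_upwards [(isOpen_InGap a m).mem_nhds h] with s hs
  have e2 : ∀ c : ℕ, perT (er a m s) l c =
      ∫ θ in (0:ℝ)..(Real.pi / 2), 2 * (x θ ^ c / √(σ * (x θ - s) * R (x θ))) := by
    intro c
    unfold perT
    simp only [hxs, hW]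
  rw [e2, e2, ← intervalIntegral.integral_const_mul s, ← intervalIntegral.integral_sub
    ((hgc s hs (c + 1)).intervalIntegrable _ _)
    (((hgc s hs c).intervalIntegrable _ _).const_mul s)]

/-- the branch point is an endpoint of the gap -/
theorem lemBC {U : Set ℝ} (hU : IsOpen U) {t : ℝ} (ht : t ∈ U) (w : ℝ[X]) (e τ : ℝ) (u : ℝ → ℝ) (c : ℕ)
    (hτ : τ * τ = 1) (hu : ∀ θ, HasDerivAt u (τ * (2 * Real.sin θ * Real.cos θ)) θ)
    (hu1 : ∀ θ, 1 - 2 * u θ = τ * (Real.cos θ ^ 2 - Real.sin θ ^ 2))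
    (hu2 : ∀ θ, u θ * (1 - u θ) = Real.sin θ ^ 2 * Real.cos θ ^ 2)
    (hpos : ∀ s ∈ U, ∀ θ, 0 < w.eval (s * u θ + e * (1 - u θ))) :
    HasDerivAt (fun s => ∫ θ in (0:ℝ)..(Real.pi / 2),
      (2 * ((s * u θ + e * (1 - u θ)) ^ (c + 1) / √(w.eval (s * u θ + e * (1 - u θ)))) -
      s * (2 * ((s * u θ + e * (1 - u θ)) ^ c / √(w.eval (s * u θ + e * (1 - u θ)))))))
      (-(∫ θ in (0:ℝ)..(Real.pi / 2), 2 * ((t * u θ + e * (1 - u θ)) ^ c /
        √(w.eval (t * u θ + e * (1 - u θ))))) / 2) t := by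
  have huc : Continuous u := continuous_iff_continuousAt.2 fun θ => (hu θ).continuousAt
  -- the function and its derivative
  set H : ℝ → ℝ := fun x => x ^ c / √(w.eval x) with hH
  set H1 : ℝ → ℝ := fun x => ((c : ℝ) * x ^ (c - 1) * √(w.eval x) -
    x ^ c * (w.derivative.eval x / (2 * √(w.eval x)))) / √(w.eval x) ^ 2 with hH1
  have hHd : ∀ x, 0 < w.eval x → HasDerivAt H (H1 x) x := by
    intro x hx
    exact (hasDerivAt_pow c x).div ((w.hasDerivAt x).sqrt hx.ne') (Real.sqrt_pos.2 hx).ne'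
  set X : ℝ → ℝ → ℝ := fun s θ => s * u θ + e * (1 - u θ) with hX
  have hXc : Continuous fun p : ℝ × ℝ => X p.1 p.2 := by
    simp only [hX]
    fun_prop
  have hXs : ∀ s, Continuous (X s) := fun s => by
    simp only [hX]
    fun_prop
  have hsq : ∀ s ∈ U, ∀ θ, √(w.eval (X s θ)) ≠ 0 := fun s hs θ => (Real.sqrt_pos.2 (hpos s hs θ)).ne'
  have hwX : Continuous fun p : ℝ × ℝ => √(w.eval (X p.1 p.2)) :=
    Real.continuous_sqrt.comp (w.continuous.comp hXc)
  have hHX : ContinuousOn (fun p : ℝ × ℝ => H (X p.1 p.2)) (U ×ˢ univ) :=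
    ContinuousOn.div (hXc.pow c).continuousOn hwX.continuousOn fun p hp => hsq p.1 hp.1 p.2
  have hH1X : ContinuousOn (fun p : ℝ × ℝ => H1 (X p.1 p.2)) (U ×ˢ univ) := by
    refine ContinuousOn.div (ContinuousOn.sub ?_ ?_) (hwX.pow 2).continuousOn
      fun p hp => pow_ne_zero 2 (hsq p.1 hp.1 p.2)
    · exact ((continuous_const.mul (hXc.pow _)).mul hwX).continuousOn
    · refine (hXc.pow c).continuousOn.mul (ContinuousOn.div (w.derivative.continuous.comp hXc).continuousOn
        (continuous_const.mul hwX).continuousOn fun p hp => ?_)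
      exact mul_ne_zero two_ne_zero (hsq p.1 hp.1 p.2)
  have hslice : ∀ (φ : ℝ → ℝ), ContinuousOn (fun p : ℝ × ℝ => φ (X p.1 p.2)) (U ×ˢ univ) →
      ∀ s ∈ U, Continuous fun θ => φ (X s θ) := by
    intro φ hφ s hs
    rw [continuous_iff_continuousAt]
    intro θ
    have h1 : ContinuousAt (fun p : ℝ × ℝ => φ (X p.1 p.2)) (s, θ) :=
      hφ.continuousAt ((hU.prod isOpen_univ).mem_nhds ⟨hs, mem_univ _⟩)
    exact ContinuousAt.comp (f := fun θ => (s, θ)) (g := fun p : ℝ × ℝ => φ (X p.1 p.2)) h1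
      (Continuous.prodMk_right s).continuousAt
  have hg : ∀ s θ, 2 * (X s θ ^ (c + 1) / √(w.eval (X s θ))) - s * (2 * (X s θ ^ c / √(w.eval (X s θ)))) =
      2 * (X s θ - s) * H (X s θ) := by
    intro s θ
    simp only [hH]
    ring
  have hXd : ∀ s θ, HasDerivAt (fun s => X s θ) (u θ) s := by
    intro s θ
    have h1 := ((hasDerivAt_id s).mul_const (u θ)).add_const (e * (1 - u θ))
    exact h1.congr_deriv (one_mul _)
  have key := hasDerivAt_int hU (g := fun s θ => 2 * (X s θ - s) * H (X s θ))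
    (g' := fun s θ => 2 * (u θ - 1) * H (X s θ) + 2 * (X s θ - s) * (H1 (X s θ) * u θ))
    (t := t) (b := Real.pi / 2) ht (by positivity)
    (fun s hs => ((continuous_const.mul ((hXs s).sub continuous_const)).mul (hslice H hHX s hs)))
    (by
      refine ContinuousOn.add (ContinuousOn.mul ?_ hHX) (ContinuousOn.mul ?_ (hH1X.mul ?_))
      · exact (continuous_const.mul ((huc.comp continuous_snd).sub continuous_const)).continuousOn
      · exact (continuous_const.mul (hXc.sub continuous_fst)).continuousOn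
      · exact (huc.comp continuous_snd).continuousOn)
    (fun s hs θ => by
      have h1 := (((hXd s θ).sub (hasDerivAt_id s)).const_mul 2).mul
        ((hHd _ (hpos s hs θ)).comp s (hXd s θ))
      exact h1)
  -- the derivative of the integral
  have hBd : ∀ θ, HasDerivAt (fun θ => Real.sin θ * Real.cos θ * H (X t θ))
      ((Real.cos θ ^ 2 - Real.sin θ ^ 2) * H (X t θ) + Real.sin θ * Real.cos θ * (H1 (X t θ) *
        ((t - e) * (τ * (2 * Real.sin θ * Real.cos θ))))) θ := by
    intro θ
    have h1 : HasDerivAt (X t) ((t - e) * (τ * (2 * Real.sin θ * Real.cos θ))) θ := by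
      have h2 := ((hu θ).const_mul (t - e)).const_add e
      have h3 : X t = fun θ => e + (t - e) * u θ := by
        funext θ
        simp only [hX]
        ring
      rw [h3]
      exact h2
    have h4 := ((Real.hasDerivAt_sin θ).mul (Real.hasDerivAt_cos θ)).mul ((hHd _ (hpos t ht θ)).comp θ h1)
    refine h4.congr_deriv ?_
    simp only [Function.comp, Pi.mul_apply]
    ring
  have hBc : Continuous fun θ => (Real.cos θ ^ 2 - Real.sin θ ^ 2) * H (X t θ) +
      Real.sin θ * Real.cos θ * (H1 (X t θ) * ((t - e) * (τ * (2 * Real.sin θ * Real.cos θ)))) := by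
    have h1 := hslice H hHX t ht
    have h2 := hslice H1 hH1X t ht
    exact (((Real.continuous_cos.pow 2).sub (Real.continuous_sin.pow 2)).mul h1).add
      ((Real.continuous_sin.mul Real.continuous_cos).mul (h2.mul (continuous_const.mul
        (continuous_const.mul ((continuous_const.mul Real.continuous_sin).mul Real.continuous_cos)))))
  have hB := intervalIntegral.integral_eq_sub_of_hasDerivAt (a := 0) (b := Real.pi / 2)
    (fun θ _ => hBd θ) (hBc.intervalIntegrable _ _)
  simp only [Real.sin_zero, Real.cos_pi_div_two, zero_mul, mul_zero, sub_zero] at hB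
  have e1 : ∫ θ in (0:ℝ)..(Real.pi / 2), (2 * (u θ - 1) * H (X t θ) + 2 * (X t θ - t) * (H1 (X t θ) * u θ)) =
      -(∫ θ in (0:ℝ)..(Real.pi / 2), 2 * (X t θ ^ c / √(w.eval (X t θ)))) / 2 := by
    have h1 : ∀ θ, (2 * (u θ - 1) * H (X t θ) + 2 * (X t θ - t) * (H1 (X t θ) * u θ)) =
        (-τ) * ((Real.cos θ ^ 2 - Real.sin θ ^ 2) * H (X t θ) +
          Real.sin θ * Real.cos θ * (H1 (X t θ) * ((t - e) * (τ * (2 * Real.sin θ * Real.cos θ))))) -
          H (X t θ) := by
      intro θ
      have h2 : X t θ - t = (e - t) * (1 - u θ) := by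
        simp only [hX]
        ring
      rw [h2]
      linear_combination (-(H (X t θ))) * (hu1 θ) + 2 * (e - t) * H1 (X t θ) * (hu2 θ) +
        (2 * (t - e) * H1 (X t θ) * (Real.sin θ ^ 2 * Real.cos θ ^ 2)) * hτ
    simp only [h1]
    rw [intervalIntegral.integral_sub ((hBc.intervalIntegrable _ _).const_mul (-τ))
      ((hslice H hHX t ht).intervalIntegrable _ _), intervalIntegral.integral_const_mul, hB, mul_zero, zero_sub,
      intervalIntegral.integral_const_mul]
    simp only [hH]
    ring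
  rw [e1] at key
  refine key.congr_of_eventuallyEq (Eventually.of_forall fun s => ?_)
  simp only
  refine intervalIntegral.integral_congr fun θ _ => ?_
  exact hg s θ

/-- the product of the factors, as a polynomial -/
noncomputable def wp (e : Fin (n + 1) → ℝ) (l : Fin n) : ℝ[X] :=
  ∏ i, if i < l.castSucc then X - C (e i) else if l.succ < i then C (e i) - X else 1

theorem wp_eval (e : Fin (n + 1) → ℝ) (l : Fin n) (x : ℝ) : (wp e l).eval x = Wf e l x := by
  unfold wp Wf rfac
  rw [eval_prod]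
  refine Finset.prod_congr rfl fun i _ => ?_
  split_ifs <;> simp

theorem caseBC {a : Fin n → ℝ} (ha : StrictMono a) {m : Fin (n + 1)} {t : ℝ} (h : InGap a m t)
    (l : Fin n) (c : ℕ) (τ e : ℝ) (u : ℝ → ℝ) (hm : m = l.castSucc ∨ m = l.succ)
    (hτ : τ * τ = 1) (hu : ∀ θ, HasDerivAt u (τ * (2 * Real.sin θ * Real.cos θ)) θ)
    (hu1 : ∀ θ, 1 - 2 * u θ = τ * (Real.cos θ ^ 2 - Real.sin θ ^ 2))
    (hu2 : ∀ θ, u θ * (1 - u θ) = Real.sin θ ^ 2 * Real.cos θ ^ 2)
    (hx : ∀ s θ, xs (er a m s) l θ = s * u θ + e * (1 - u θ)) :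
    HasDerivAt (fun s => perT (er a m s) l (c + 1) - s * perT (er a m s) l c)
      (-(perT (er a m t) l c) / 2) t := by
  have hW : ∀ s y, Wf (er a m s) l y = (wp (er a m t) l).eval y := by
    intro s y
    rw [wp_eval]
    unfold Wf
    refine Finset.prod_congr rfl fun i _ => ?_
    by_cases hi : i = m
    · unfold rfac
      have h1 : ¬ i < l.castSucc := by
        rw [hi]
        rcases hm with rfl | rfl
        · exact lt_irrefl _
        · exact not_lt.2 Fin.castSucc_lt_succ.le
      have h2 : ¬ l.succ < i := by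
        rw [hi]
        rcases hm with rfl | rfl
        · exact not_lt.2 Fin.castSucc_lt_succ.le
        · exact lt_irrefl _
      rw [if_neg h1, if_neg h2, if_neg h1, if_neg h2]
    · unfold rfac
      rw [er_ne a hi s t]
  have key := lemBC (isOpen_InGap a m) (t := t) h (wp (er a m t) l) e τ u c hτ hu hu1 hu2 (by
    intro s hs θ
    rw [← hW s, ← hx]
    have hst := er_strictMono ha hs
    exact Wf_pos hst (xs_mem hst l θ).1 (xs_mem hst l θ).2)
  have e1 : ∫ θ in (0:ℝ)..(Real.pi / 2), 2 * ((t * u θ + e * (1 - u θ)) ^ c /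
        √((wp (er a m t) l).eval (t * u θ + e * (1 - u θ)))) = perT (er a m t) l c := by
    unfold perT
    simp only [hx, hW]
  rw [e1] at key
  refine key.congr_of_eventuallyEq ?_
  filter_upwards [(isOpen_InGap a m).mem_nhds h] with s hs
  have hst := er_strictMono ha hs
  unfold perT
  rw [← intervalIntegral.integral_const_mul s, ← intervalIntegral.integral_sub
    ((cont_psi hst l (c + 1)).intervalIntegrable _ _)
    (((cont_psi hst l c).intervalIntegrable _ _).const_mul s)]
  simp only [hx, hW]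

/-- (i): the derivative of `P_(c+1) - t P_c` -/
theorem der_i {a : Fin n → ℝ} (ha : StrictMono a) {m : Fin (n + 1)} {t : ℝ} (h : InGap a m t)
    (l : Fin n) (c : ℕ) :
    HasDerivAt (fun s => perT (er a m s) l (c + 1) - s * perT (er a m s) l c)
      (-(perT (er a m t) l c) / 2) t := by
  by_cases h1 : m = l.castSucc
  · have hne : l.succ ≠ m := by rw [h1]; exact Fin.castSucc_lt_succ.ne'
    refine caseBC ha h l c (-1) (er a m t l.succ) (fun θ => Real.cos θ ^ 2) (Or.inl h1) (by norm_num)
      ?_ ?_ ?_ ?_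
    · intro θ
      refine ((Real.hasDerivAt_cos θ).pow 2).congr_deriv ?_
      norm_num
      ring
    · intro θ
      have := Real.sin_sq_add_cos_sq θ
      linear_combination (-1 : ℝ) * this
    · intro θ
      have : 1 - Real.cos θ ^ 2 = Real.sin θ ^ 2 := by
        have := Real.sin_sq_add_cos_sq θ
        linarith
      rw [this]
      ring
    · intro s θ
      unfold xs
      rw [er_ne a hne s t]
      have h2 : er a m s l.castSucc = s := by rw [← h1]; exact er_self a m s
      rw [h2]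
      have := Real.sin_sq_add_cos_sq θ
      have h3 : Real.cos θ ^ 2 = 1 - Real.sin θ ^ 2 := by linarith
      rw [h3]
      ring
  · by_cases h2 : m = l.succ
    · have hne : l.castSucc ≠ m := by rw [h2]; exact Fin.castSucc_lt_succ.ne
      refine caseBC ha h l c 1 (er a m t l.castSucc) (fun θ => Real.sin θ ^ 2) (Or.inr h2) (by norm_num)
        ?_ ?_ ?_ ?_
      · intro θ
        refine ((Real.hasDerivAt_sin θ).pow 2).congr_deriv ?_
        norm_num
      · intro θ
        have := Real.sin_sq_add_cos_sq θ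
        linear_combination (-1 : ℝ) * this
      · intro θ
        have : 1 - Real.sin θ ^ 2 = Real.cos θ ^ 2 := by
          have := Real.sin_sq_add_cos_sq θ
          linarith
        rw [this]
      · intro s θ
        unfold xs
        rw [er_ne a hne s t]
        have h3 : er a m s l.succ = s := by rw [← h2]; exact er_self a m s
        rw [h3]
        ring
    · exact caseA ha h l c h1 h2

end Pool.Agent.Y496.HG
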