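import Pool.Agent.Y118.HG.Defs
import Pool.Agent.Y496.HG.Pode1

/-!
# The differential equation of the real hyperelliptic periods (job HG-PODE of helper118)
-/

set_option autoImplicit false

open Set MeasureTheory Filter Topology Polynomial

namespace Pool.Agent.Y496.HG

open Pool.Agent.Y118.HP Pool.Agent.Y118.HG

variable {n : ℕ}

/-- (ii): the integral of an exact differential -/
theorem exact_ii {e : Fin (n + 1) → ℝ} (he : StrictMono e) (l : Fin n) :
    ∫ θ in (0 : ℝ)..(Real.pi / 2), 2 / √(Wf e l (xs e l θ)) * (derivative (FF e)).eval (xs e l θ) = 0 := by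
  have hL := len_pos he l
  have hp : 0 < Real.pi := Real.pi_pos
  set σ : ℝ := (-1) ^ (n - (l : ℕ)) with hσ
  have hσ2 : σ * σ = 1 := sigma_sq _
  have hσ0 : σ ≠ 0 := by intro h; rw [h] at hσ2; simp at hσ2
  have hF : ∀ θ, σ * (FF e).eval (xs e l θ) =
      ((e l.succ - e l.castSucc) * (Real.sin θ * Real.cos θ)) ^ 2 * Wf e l (xs e l θ) := by
    intro θ
    rw [hσ, sign_F he l (xs_mem he l θ).1 (xs_mem he l θ).2, xs_sub]
  set G : ℝ → ℝ := fun θ => 2 * √(σ * (FF e).eval (xs e l θ)) with hG
  have hGc : Continuous G := by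
    refine continuous_const.mul (Real.continuous_sqrt.comp (continuous_const.mul ?_))
    exact (FF e).continuous.comp (continuous_xs e l)
  have hderiv : ∀ θ ∈ Ioo (0 : ℝ) (Real.pi / 2), HasDerivAt G (σ * (2 / √(Wf e l (xs e l θ)) *
      (derivative (FF e)).eval (xs e l θ))) θ := by
    intro θ hθ
    have s1 : 0 < Real.sin θ := Real.sin_pos_of_pos_of_lt_pi hθ.1 (by linarith [hθ.2])
    have c1 : 0 < Real.cos θ := Real.cos_pos_of_mem_Ioo ⟨by linarith [hθ.1], hθ.2⟩
    have hW := Wf_pos he (xs_mem he l θ).1 (xs_mem he l θ).2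
    have hWs := Real.sqrt_pos.2 hW
    have hx := hasDerivAt_xs e l θ
    have hpos : 0 < σ * (FF e).eval (xs e l θ) := by rw [hF]; positivity
    have hsq : √(σ * (FF e).eval (xs e l θ)) =
        (e l.succ - e l.castSucc) * (Real.sin θ * Real.cos θ) * √(Wf e l (xs e l θ)) := by
      rw [hF, Real.sqrt_mul (sq_nonneg _), Real.sqrt_sq (by positivity)]
    have h1 : HasDerivAt (fun θ => (FF e).eval (xs e l θ)) ((derivative (FF e)).eval (xs e l θ) *
        ((e l.succ - e l.castSucc) * (2 * Real.sin θ * Real.cos θ))) θ :=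
      ((FF e).hasDerivAt _).comp θ hx
    have h2 := ((h1.const_mul σ).sqrt hpos.ne').const_mul 2
    refine h2.congr_deriv ?_
    rw [hsq]
    field_simp
  have hint : Continuous fun θ => 2 / √(Wf e l (xs e l θ)) * (derivative (FF e)).eval (xs e l θ) :=
    (continuous_psi he l).mul ((derivative (FF e)).continuous.comp (continuous_xs e l))
  have key := intervalIntegral.integral_eq_sub_of_hasDerivAt_of_le (by positivity : (0 : ℝ) ≤ Real.pi / 2)
    hGc.continuousOn hderiv ((hint.intervalIntegrable _ _).const_mul σ)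
  rw [intervalIntegral.integral_const_mul] at key
  have hG0 : G 0 = 0 := by
    simp only [hG]
    rw [hF]; simp
  have hG1 : G (Real.pi / 2) = 0 := by
    simp only [hG]
    rw [hF]; simp
  rw [hG0, hG1, sub_zero] at key
  exact (mul_eq_zero.1 key).resolve_left hσ0

/-- all periods are differentiable -/
theorem perT_diff {a : Fin n → ℝ} (ha : StrictMono a) (m : Fin (n + 1)) (l : Fin n) (c : ℕ) {t : ℝ}
    (h : InGap a m t) : DifferentiableAt ℝ (fun s => perT (er a m s) l c) t := by
  have h1 : DifferentiableAt ℂ (fun z => perC (ee a m z) l c) (t : ℂ) :=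
    (differentiableOn_perC ha m l c).differentiableAt ((isOpen_Dm a m).mem_nhds h.mem_Dm)
  have h2 : DifferentiableAt ℝ (fun s : ℝ => perC (ee a m (s : ℂ)) l c) t :=
    h1.hasDerivAt.comp_ofReal.differentiableAt
  have h3 : DifferentiableAt ℝ (fun s : ℝ => (perC (ee a m (s : ℂ)) l c).re) t :=
    (Complex.reCLM.differentiableAt (x := perC (ee a m (t : ℂ)) l c)).comp t h2
  refine h3.congr_of_eventuallyEq ?_
  filter_upwards [(isOpen_InGap a m).mem_nhds h] with s hs
  rw [ee_ofReal, perC_eq_perT (er_strictMono ha hs), Complex.ofReal_re]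

/-- (ii) as a relation between the periods -/
theorem rel_ii {a : Fin n → ℝ} (ha : StrictMono a) {m : Fin (n + 1)} (l : Fin n) {t : ℝ} (h : InGap a m t)
    (f : ℝ[X]) (hf : f = ∏ i, (X - C (a i))) :
    ∑ c ∈ Finset.range (n + 1), f.coeff c * ((c + 1) * perT (er a m t) l c -
      t * (c * perT (er a m t) l (c - 1))) = 0 := by
  have hst := er_strictMono ha h
  have hdeg : f.natDegree < n + 1 := by
    rw [hf, natDegree_finsetProd_X_sub_C_eq_card]
    simp
  have hFF : FF (er a m t) = f * (X - C t) := by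
    rw [hf]
    exact prod_er a m t
  have h0 := exact_ii hst l
  have h1 : ∀ θ, 2 / √(Wf (er a m t) l (xs (er a m t) l θ)) *
      (derivative (FF (er a m t))).eval (xs (er a m t) l θ) =
      ∑ c ∈ Finset.range (n + 1), f.coeff c * ((c + 1) * (2 * (xs (er a m t) l θ ^ c /
        √(Wf (er a m t) l (xs (er a m t) l θ)))) - t * (c * (2 * (xs (er a m t) l θ ^ (c - 1) /
        √(Wf (er a m t) l (xs (er a m t) l θ)))))) := by
    intro θ
    set x := xs (er a m t) l θ
    have h2 : (derivative (FF (er a m t))).eval x =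
        ∑ c ∈ Finset.range (n + 1), f.coeff c * ((c + 1) * x ^ c - t * (c * x ^ (c - 1))) := by
      rw [hFF, derivative_mul]
      simp only [derivative_sub, derivative_X, derivative_C, sub_zero, mul_one, eval_add, eval_mul, eval_sub,
        eval_X, eval_C]
      rw [eval_eq_sum_range' hdeg x, derivative_eval, sum_over_range' f _ (n + 1) hdeg, Finset.sum_mul,
        ← Finset.sum_add_distrib]
      · refine Finset.sum_congr rfl fun c _ => ?_
        rcases Nat.eq_zero_or_pos c with rfl | hc
        · simp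
        · obtain ⟨d, rfl⟩ := Nat.exists_eq_succ_of_ne_zero hc.ne'
          simp only [Nat.succ_eq_add_one, Nat.add_sub_cancel]
          push_cast
          ring
      · intro k
        simp
    rw [h2, Finset.mul_sum]
    refine Finset.sum_congr rfl fun c _ => ?_
    ring
  simp only [h1] at h0
  rw [intervalIntegral.integral_finsetSum] at h0
  · rw [← h0]
    refine Finset.sum_congr rfl fun c _ => ?_
    rw [intervalIntegral.integral_const_mul, intervalIntegral.integral_sub
      (((cont_psi hst l c).intervalIntegrable _ _).const_mul _)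
      ((((cont_psi hst l (c - 1)).intervalIntegrable _ _).const_mul _).const_mul _)]
    unfold perT
    simp only [intervalIntegral.integral_const_mul]
  · intro c _
    exact ((((cont_psi hst l c).intervalIntegrable _ _).const_mul _).sub
      ((((cont_psi hst l (c - 1)).intervalIntegrable _ _).const_mul _).const_mul _)).const_mul _

/-- the solution of the recurrence (i) -/
theorem rec_i (t : ℝ) (p D : ℕ → ℝ) (h : ∀ c, D (c + 1) = t * D c + p c / 2) (c : ℕ) :
    D c = t ^ c * D 0 + 1 / 2 * ∑ k ∈ Finset.range c, t ^ (c - 1 - k) * p k := by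
  induction c with
  | zero => simp
  | succ c ih =>
    rw [h, ih, Finset.sum_range_succ]
    have h1 : ∑ k ∈ Finset.range c, t ^ (c + 1 - 1 - k) * p k =
        t * ∑ k ∈ Finset.range c, t ^ (c - 1 - k) * p k := by
      rw [Finset.mul_sum]
      refine Finset.sum_congr rfl fun k hk => ?_
      have : c + 1 - 1 - k = (c - 1 - k) + 1 := by
        have := Finset.mem_range.1 hk
        omega
      rw [this, pow_succ]
      ring
    rw [h1]
    have : c + 1 - 1 - c = 0 := by omega
    rw [this, pow_succ]
    ring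

theorem t_pode : T_pode := by
  intro n a m f t ha h hf l j
  classical
  set φ : ℕ → ℝ := fun c => ((f.coeff c : ℚ) : ℝ) with hφ
  set p : ℕ → ℝ := fun c => perT (er a m t) l c with hp
  set P : ℕ → ℝ → ℝ := fun c s => perT (er a m s) l c with hP
  have hdiff : ∀ c, HasDerivAt (P c) (deriv (P c) t) t := fun c => (perT_diff ha m l c h).hasDerivAt
  set D : ℕ → ℝ := fun c => deriv (P c) t with hD
  set f' : ℝ[X] := f.map (algebraMap ℚ ℝ) with hf'
  have hcoe : ∀ c, f'.coeff c = φ c := by
    intro c
    rw [hf', coeff_map]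
    rfl
  have hdeg : f'.natDegree = n := by
    rw [hf, natDegree_finsetProd_X_sub_C_eq_card]
    simp
  have haev : aeval t f = ∑ c ∈ Finset.range (n + 1), φ c * t ^ c := by
    have h1 : aeval t f = f'.eval t := by
      rw [hf', eval_map_algebraMap]
    rw [h1, eval_eq_sum_range' (n := n + 1) (by omega) t]
    exact Finset.sum_congr rfl fun c _ => by rw [hcoe]
  have hft : aeval t f ≠ 0 := by
    have h1 : aeval t f = f'.eval t := by
      rw [hf', eval_map_algebraMap]
    rw [h1, hf, eval_prod]
    refine Finset.prod_ne_zero_iff.2 fun i _ => ?_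
    simp only [eval_sub, eval_X, eval_C]
    by_cases h2 : i.castSucc < m
    · have := (h i).1 h2
      exact (by linarith : 0 < t - a i).ne'
    · have := (h i).2 (not_lt.1 h2)
      exact (by linarith : t - a i < 0).ne
  -- (i)
  have hi : ∀ c, D (c + 1) = t * D c + p c / 2 := by
    intro c
    have h1 := der_i ha h l c
    have h2 := (hdiff (c + 1)).sub ((hasDerivAt_id t).mul (hdiff c))
    have h3 := h1.unique h2
    simp only [id] at h3
    have h4 : -(perT (er a m t) l c) / 2 = -(p c) / 2 := rfl
    have h5 : P c t = p c := rfl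
    rw [h4, h5] at h3
    show deriv (P (c + 1)) t = t * deriv (P c) t + p c / 2
    linarith
  -- (ii), differentiated
  have hii : ∑ c ∈ Finset.range (n + 1), φ c * ((c + 1) * D c - (c * p (c - 1) + t * (c * D (c - 1)))) = 0 := by
    have h1 : HasDerivAt (fun s => ∑ c ∈ Finset.range (n + 1), φ c * ((c + 1) * P c s -
        s * (c * P (c - 1) s)))
        (∑ c ∈ Finset.range (n + 1), φ c * ((c + 1) * D c - (1 * (c * P (c - 1) t) + t * (c * D (c - 1))))) t := by
      refine HasDerivAt.fun_sum fun c _ => ?_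
      exact (((hdiff c).const_mul _).sub ((hasDerivAt_id t).mul ((hdiff (c - 1)).const_mul _))).const_mul _
    have h2 : HasDerivAt (fun s => ∑ c ∈ Finset.range (n + 1), φ c * ((c + 1) * P c s -
        s * (c * P (c - 1) s))) 0 t := by
      refine (hasDerivAt_const t (0 : ℝ)).congr_of_eventuallyEq ?_
      filter_upwards [(isOpen_InGap a m).mem_nhds h] with s hs
      have h3 := rel_ii ha l hs f' hf
      simp only [hcoe] at h3
      exact h3
    have h3 := h1.unique h2
    rw [← h3]
    refine Finset.sum_congr rfl fun c _ => ?_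
    rw [one_mul]
  have hii' : ∑ c ∈ Finset.range (n + 1), φ c * D c =
      1 / 2 * ∑ c ∈ Finset.range (n + 1), φ c * (c * p (c - 1)) := by
    rw [← sub_eq_zero, Finset.mul_sum, ← Finset.sum_sub_distrib, ← hii]
    refine Finset.sum_congr rfl fun c _ => ?_
    rcases Nat.eq_zero_or_pos c with rfl | hc
    · simp
    · obtain ⟨d, rfl⟩ := Nat.exists_eq_succ_of_ne_zero hc.ne'
      simp only [Nat.succ_eq_add_one, Nat.add_sub_cancel]
      have := hi d
      push_cast
      linear_combination (-φ (d + 1) * ((d : ℝ) + 1)) * this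
  have hrec := rec_i t p D hi
  -- the equation for D 0
  have h0 : aeval t f * D 0 = ∑ k ∈ Finset.range n, 1 / 2 * ((((k : ℝ) + 1) * φ (k + 1)) -
      ∑ c ∈ Finset.Ioc k n, φ c * t ^ (c - 1 - k)) * p k := by
    have h1 : ∑ c ∈ Finset.range (n + 1), φ c * D c = aeval t f * D 0 +
        1 / 2 * ∑ c ∈ Finset.range (n + 1), φ c * ∑ k ∈ Finset.range c, t ^ (c - 1 - k) * p k := by
      rw [haev, Finset.sum_mul, Finset.mul_sum, ← Finset.sum_add_distrib]
      refine Finset.sum_congr rfl fun c _ => ?_
      rw [hrec c]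
      ring
    have h2 : ∑ c ∈ Finset.range (n + 1), φ c * ∑ k ∈ Finset.range c, t ^ (c - 1 - k) * p k =
        ∑ k ∈ Finset.range n, (∑ c ∈ Finset.Ioc k n, φ c * t ^ (c - 1 - k)) * p k := by
      simp only [Finset.mul_sum, Finset.sum_mul]
      rw [Finset.sum_sigma', Finset.sum_sigma']
      refine Finset.sum_nbij' (fun x => ⟨x.2, x.1⟩) (fun x => ⟨x.2, x.1⟩) ?_ ?_ ?_ ?_ ?_
      · rintro ⟨c, k⟩ hx
        simp only [Finset.mem_sigma, Finset.mem_range, Finset.mem_Ioc] at hx ⊢
        omega
      · rintro ⟨k, c⟩ hx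
        simp only [Finset.mem_sigma, Finset.mem_range, Finset.mem_Ioc] at hx ⊢
        omega
      · intro x _; rfl
      · intro x _; rfl
      · rintro ⟨c, k⟩ _
        ring
    have h3 : ∑ c ∈ Finset.range (n + 1), φ c * (c * p (c - 1)) =
        ∑ k ∈ Finset.range n, (((k : ℝ) + 1) * φ (k + 1)) * p k := by
      rw [Finset.sum_range_succ']
      simp only [Nat.add_sub_cancel, Nat.cast_zero, zero_mul, mul_zero, add_zero]
      refine Finset.sum_congr rfl fun k _ => ?_
      push_cast
      ring
    have h4 : aeval t f * D 0 = 1 / 2 * ∑ k ∈ Finset.range n, (((k : ℝ) + 1) * φ (k + 1)) * p k -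
        1 / 2 * ∑ k ∈ Finset.range n, (∑ c ∈ Finset.Ioc k n, φ c * t ^ (c - 1 - k)) * p k := by
      rw [← h2, ← h3, ← hii', h1]
      ring
    rw [h4, Finset.mul_sum, Finset.mul_sum, ← Finset.sum_sub_distrib]
    refine Finset.sum_congr rfl fun k _ => ?_
    ring
  -- the equation for D j
  have hj : aeval t f * D j = ∑ k : Fin n, aeval t (cA n f j k) * p k := by
    have h1 : ∀ k : Fin n, aeval t (cA n f j k) = t ^ (j : ℕ) * (1 / 2 * ((((k : ℕ) : ℝ) + 1) * φ (k + 1) -
        ∑ c ∈ Finset.Ioc (k : ℕ) n, φ c * t ^ (c - 1 - (k : ℕ)))) +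
        (if (k : ℕ) < (j : ℕ) then 1 / 2 * aeval t f * t ^ ((j : ℕ) - 1 - (k : ℕ)) else 0) := by
      intro k
      unfold cA
      rw [map_add]
      congr 1
      · simp [hφ, aeval_C]
      · split_ifs
        · simp
        · simp
    simp only [h1, add_mul, Finset.sum_add_distrib]
    rw [hrec j, mul_add]
    congr 1
    · have h2 : aeval t f * (t ^ (j : ℕ) * D 0) = t ^ (j : ℕ) * (aeval t f * D 0) := by ring
      rw [h2, h0, Finset.mul_sum, ← Fin.sum_univ_eq_sum_range (fun k => t ^ (j : ℕ) * (1 / 2 * ((((k : ℝ) + 1) *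
        φ (k + 1)) - ∑ c ∈ Finset.Ioc k n, φ c * t ^ (c - 1 - k)) * p k)) n]
      refine Finset.sum_congr rfl fun k _ => ?_
      ring
    · rw [Fin.sum_univ_eq_sum_range (fun k => (if k < (j : ℕ) then 1 / 2 * aeval t f *
        t ^ ((j : ℕ) - 1 - k) else 0) * p k) n]
      have h2 : ∀ k ∈ Finset.range n, (if k < (j : ℕ) then 1 / 2 * aeval t f *
        t ^ ((j : ℕ) - 1 - k) else 0) * p k = if k < (j : ℕ) then 1 / 2 * aeval t f *
        t ^ ((j : ℕ) - 1 - k) * p k else 0 := by
        intro k _
        split_ifs <;> simp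
      rw [Finset.sum_congr rfl h2, ← Finset.sum_filter]
      have h3 : (Finset.range n).filter (fun k => k < (j : ℕ)) = Finset.range j := by
        ext k
        have := j.isLt
        simp only [Finset.mem_filter, Finset.mem_range]
        omega
      rw [h3, Finset.mul_sum, Finset.mul_sum]
      refine Finset.sum_congr rfl fun k _ => ?_
      ring
  have hfin : D j = (∑ k : Fin n, aeval t (cA n f j k) * perT (er a m t) l (k : ℕ)) / aeval t f := by
    rw [eq_div_iff hft, mul_comm]
    exact hj
  rw [← hfin]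
  exact hdiff j

end Pool.Agent.Y496.HG
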